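import Pool.Agent.Helper90.VS.Defs2
import Pool.Agent.Helper69.VSPot

/-!
# MP_539ca6_an: gradient of the relative stream function (R4e, R8a)
-/

open MeasureTheory Set Filter Topology

namespace Pool.Agent.Helper98.VS

open Pool.Agent.Helper90.VS Pool.Agent.Helper69.VSPot

noncomputable section

theorem measurableSet_Aset (m : ℕ) {a : ℝ → ℝ} (ha : Prof a) : MeasurableSet (Aset m a) := by
  have ham : Measurable a := ha.mono.measurable
  have h1 : Measurable (fun x : ℂ => ‖x‖ ^ m) := by fun_prop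
  have h2 : Measurable (fun x : ℂ => ‖x‖) := by fun_prop
  have h3 : Measurable (fun x : ℂ => a (-(m * Real.log ‖x‖))) :=
    ham.comp ((measurable_const.mul (Real.measurable_log.comp h2)).neg)
  have h4 : Measurable (fun x : ℂ => |Complex.arg (x ^ m)|) := by
    have : Measurable (fun x : ℂ => x ^ m) := by fun_prop
    exact (Complex.measurable_arg.comp this).abs
  exact (measurableSet_lt measurable_const h1).inter
    ((measurableSet_lt h2 measurable_const).inter (measurableSet_lt h3 h4))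

theorem measurableSet_D0 (m : ℕ) {a : ℝ → ℝ} (ha : Prof a) : MeasurableSet (D0 m a) :=
  measurableSet_ball.diff (measurableSet_Aset m ha)

theorem isBounded_D0 (m : ℕ) (a : ℝ → ℝ) : Bornology.IsBounded (D0 m a) :=
  Metric.isBounded_ball.subset sdiff_subset

/-- gradient -/
def GC (m : ℕ) (a : ℝ → ℝ) (x : ℂ) : ℂ :=
  (1 / (2 * Real.pi) : ℝ) * CT (D0 m a) x - (Om m a : ℝ) * (starRingEnd ℂ) x

theorem GC_continuous (m : ℕ) {a : ℝ → ℝ} (ha : Prof a) : Continuous (GC m a) := by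
  have h := CT_continuous (D0 m a) (measurableSet_D0 m ha) (isBounded_D0 m a)
  unfold GC
  exact (continuous_const.mul h).sub (continuous_const.mul Complex.continuous_conj)

theorem FF_hasFDerivAt' (m : ℕ) (a : ℝ → ℝ) (ha : Prof a) (x : ℂ) :
    HasFDerivAt (FF m a) (Complex.reCLM.comp (ContinuousLinearMap.mul ℝ ℂ (GC m a x))) x := by
  have h1 := pot_hasFDerivAt (D0 m a) (measurableSet_D0 m ha) (isBounded_D0 m a) x
  have h2 : HasFDerivAt (fun x : ℂ => ‖x‖ ^ 2) (2 • (innerSL ℝ x : ℂ →L[ℝ] ℝ)) x :=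
    (hasStrictFDerivAt_norm_sq x).hasFDerivAt
  have h3 := (h1.sub_const (pot (D0 m a) 1)).sub ((h2.sub_const 1).const_mul (Om m a / 2))
  refine h3.congr_fderiv ?_
  refine ContinuousLinearMap.ext fun h => ?_
  simp [GC, innerSL_apply_apply, Complex.inner]
  ring

/-- R4e -/
theorem FF_hasFDerivAt (m : ℕ) (a : ℝ → ℝ) (ha : Prof a) (x : ℂ) :
    HasFDerivAt (FF m a) (Complex.reCLM.comp (ContinuousLinearMap.mul ℝ ℂ
      ((1 / (2 * Real.pi) : ℝ) * CT (D0 m a) x - (Om m a : ℝ) * (starRingEnd ℂ) x))) x :=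
  FF_hasFDerivAt' m a ha x


/-! ### R8a -/

theorem pt_hasFDerivAt (m : ℕ) (X t : ℝ) :
    HasFDerivAt (fun q : ℝ × ℝ => pt m q.1 q.2)
      (pt m X t • ((ContinuousLinearMap.fst ℝ ℝ ℝ).smulRight (Complex.I / m) +
        (ContinuousLinearMap.snd ℝ ℝ ℝ).smulRight (-(1 / m : ℂ)))) (X, t) := by
  have h1 : HasFDerivAt (fun q : ℝ × ℝ => ((-(q.2 : ℂ) + q.1 * Complex.I) / m))
      ((ContinuousLinearMap.fst ℝ ℝ ℝ).smulRight (Complex.I / m) +
        (ContinuousLinearMap.snd ℝ ℝ ℝ).smulRight (-(1 / m : ℂ))) (X, t) := by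
    have h := ((ContinuousLinearMap.fst ℝ ℝ ℝ).smulRight (Complex.I / m) +
        (ContinuousLinearMap.snd ℝ ℝ ℝ).smulRight (-(1 / m : ℂ))).hasFDerivAt (x := (X, t))
    refine h.congr_of_eventuallyEq (Filter.Eventually.of_forall fun q => ?_)
    simp
    ring
  exact (Complex.hasDerivAt_exp ((-(t : ℂ) + X * Complex.I) / m)).comp_hasFDerivAt (X, t) h1

def HXf (m : ℕ) (a : ℝ → ℝ) (X t : ℝ) : ℝ := (Complex.I * (m * (pt m X t * GC m a (pt m X t)))).re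

def HTf (m : ℕ) (a : ℝ → ℝ) (X t : ℝ) : ℝ := -((m * (pt m X t * GC m a (pt m X t)))).re

theorem H_hasFDerivAt (m : ℕ) (hm : 1 ≤ m) (a : ℝ → ℝ) (ha : Prof a) (X t : ℝ) :
    HasFDerivAt (fun q : ℝ × ℝ => (m:ℝ) ^ 2 * FF m a (pt m q.1 q.2))
      (HXf m a X t • ContinuousLinearMap.fst ℝ ℝ ℝ + HTf m a X t • ContinuousLinearMap.snd ℝ ℝ ℝ)
      (X, t) := by
  have hm0 : (m : ℝ) ≠ 0 := by positivity
  have hm0' : (m : ℂ) ≠ 0 := by exact_mod_cast hm0
  have h1 := (FF_hasFDerivAt' m a ha (pt m X t)).comp (X, t) (pt_hasFDerivAt m X t)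
  have h2 := h1.const_mul ((m:ℝ) ^ 2)
  refine h2.congr_fderiv ?_
  refine ContinuousLinearMap.ext fun q => ?_
  obtain ⟨x, y⟩ := q
  simp only [HXf, HTf, FunLike.coe_smul, ContinuousLinearMap.coe_comp,
    Pi.smul_apply, Function.comp_apply, add_apply,
    ContinuousLinearMap.smulRight_apply, ContinuousLinearMap.coe_fst',
    ContinuousLinearMap.coe_snd', ContinuousLinearMap.mul_apply', Complex.reCLM_apply, smul_eq_mul,
    Complex.real_smul]
  have e : GC m a (pt m X t) * (pt m X t * ((x : ℂ) * (Complex.I / m) + (y : ℂ) * -(1 / m : ℂ)))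
      = ((1 / (m:ℝ) ^ 2 : ℝ) : ℂ) * ((x : ℂ) * (Complex.I * (m * (pt m X t * GC m a (pt m X t))))
        - (y : ℂ) * (m * (pt m X t * GC m a (pt m X t)))) := by
    push_cast
    field_simp
    ring
  rw [e, Complex.re_ofReal_mul, Complex.sub_re, Complex.re_ofReal_mul, Complex.re_ofReal_mul]
  field_simp
  ring

theorem pt_continuous (m : ℕ) : Continuous (fun q : ℝ × ℝ => pt m q.1 q.2) := by
  unfold pt
  fun_prop

theorem HXf_continuous (m : ℕ) {a : ℝ → ℝ} (ha : Prof a) :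
    Continuous (fun q : ℝ × ℝ => HXf m a q.1 q.2) := by
  have h := (GC_continuous m ha).comp (pt_continuous m)
  exact Complex.continuous_re.comp
    (continuous_const.mul (continuous_const.mul ((pt_continuous m).mul h)))

theorem HTf_continuous (m : ℕ) {a : ℝ → ℝ} (ha : Prof a) :
    Continuous (fun q : ℝ × ℝ => HTf m a q.1 q.2) := by
  have h := (GC_continuous m ha).comp (pt_continuous m)
  exact (Complex.continuous_re.comp (continuous_const.mul ((pt_continuous m).mul h))).neg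

/-! conjugation symmetry -/

theorem abs_arg_conj (z : ℂ) : |Complex.arg ((starRingEnd ℂ) z)| = |Complex.arg z| := by
  rw [Complex.arg_conj]
  split_ifs with h
  · rw [h]
  · exact abs_neg _

theorem conj_mem_D0 (m : ℕ) (a : ℝ → ℝ) (x : ℂ) : (starRingEnd ℂ) x ∈ D0 m a ↔ x ∈ D0 m a := by
  simp only [D0, Aset, Set.mem_sdiff, Metric.mem_ball, dist_zero_right, mem_ofPred_eq, ← map_pow,
    abs_arg_conj, RCLike.norm_conj]

theorem conj_measurePreserving :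
    MeasurePreserving (fun x : ℂ => (starRingEnd ℂ) x) volume volume :=
  Complex.conjLIE.measurePreserving

theorem conj_measurableEmbedding : MeasurableEmbedding (fun x : ℂ => (starRingEnd ℂ) x) :=
  Complex.conjLIE.toHomeomorph.measurableEmbedding

theorem conj_setIntegral (S : Set ℂ) (hS : ∀ x, (starRingEnd ℂ) x ∈ S ↔ x ∈ S) (f : ℂ → ℂ)
    (hf : ∀ x, f ((starRingEnd ℂ) x) = (starRingEnd ℂ) (f x)) :
    (starRingEnd ℂ) (∫ y in S, f y) = ∫ y in S, f y := by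
  rw [← integral_conj]
  have h := conj_measurePreserving.setIntegral_preimage_emb conj_measurableEmbedding f S
  have h2 : (fun x : ℂ => (starRingEnd ℂ) x) ⁻¹' S = S := by
    ext x
    exact hS x
  rw [h2] at h
  rw [← h]
  simp only [hf]

theorem CT_one_conj (m : ℕ) (a : ℝ → ℝ) :
    (starRingEnd ℂ) (CT (D0 m a) 1) = CT (D0 m a) 1 := by
  refine conj_setIntegral _ (conj_mem_D0 m a) _ fun x => ?_
  simp

theorem BB_one_conj (m : ℕ) (a : ℝ → ℝ) (ρ : ℝ) :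
    (starRingEnd ℂ) (BB (D0 m a) 1 ρ) = BB (D0 m a) 1 ρ := by
  refine conj_setIntegral _ (fun x => ?_) _ fun x => ?_
  · have h : ‖(starRingEnd ℂ) x - 1‖ = ‖x - 1‖ := by
      rw [← RCLike.norm_conj (x - 1)]
      simp
    simp only [mem_inter_iff, conj_mem_D0, mem_ofPred_eq, h]
  · simp


/-! the gradient vanishes at `1` -/

theorem GC_one_im (m : ℕ) (a : ℝ → ℝ) : (GC m a 1).im = 0 := by
  rw [← Complex.conj_eq_iff_im]
  unfold GC
  simp only [map_sub, map_mul, Complex.conj_ofReal, CT_one_conj, map_one]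

theorem pt_zero (m : ℕ) : pt m 0 0 = 1 := by simp [pt]

theorem FF_one (m : ℕ) (a : ℝ → ℝ) : FF m a 1 = 0 := by simp [FF]

theorem GC_one_re (m : ℕ) (hm : 1 ≤ m) (a : ℝ → ℝ) (ha : Prof a)
    (hz : Tendsto (fun t => Phi m a 0 t / t) (𝓝[>] 0) (𝓝 0))
    (hpt : ∀ t ∈ Icc (0:ℝ) 10, (m:ℝ) ^ 2 * FF m a (pt m 0 t) = Phi m a 0 t) :
    (GC m a 1).re = 0 := by
  have h1 : HasDerivAt (fun t : ℝ => (m:ℝ) ^ 2 * FF m a (pt m 0 t)) (HTf m a 0 0) 0 := by
    have h2 : HasDerivAt (fun t : ℝ => ((0 : ℝ), t)) ((0 : ℝ), (1 : ℝ)) 0 :=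
      (hasDerivAt_const (0:ℝ) (0:ℝ)).prodMk (hasDerivAt_id 0)
    have h3 := (H_hasFDerivAt m hm a ha 0 0).comp_hasDerivAt (0:ℝ) h2
    have h4 : (HXf m a 0 0 • ContinuousLinearMap.fst ℝ ℝ ℝ +
      HTf m a 0 0 • ContinuousLinearMap.snd ℝ ℝ ℝ) ((0 : ℝ), (1 : ℝ)) = HTf m a 0 0 := by simp
    rw [h4] at h3
    exact h3
  have h4 : Tendsto (fun t : ℝ => t⁻¹ • ((m:ℝ) ^ 2 * FF m a (pt m 0 (0 + t)) -
      (m:ℝ) ^ 2 * FF m a (pt m 0 0))) (𝓝[>] 0) (𝓝 (HTf m a 0 0)) :=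
    (hasDerivAt_iff_tendsto_slope_zero.mp h1).mono_left
      (nhdsWithin_mono _ fun x hx => ne_of_gt hx)
  have h5 : Tendsto (fun t => Phi m a 0 t / t) (𝓝[>] 0) (𝓝 (HTf m a 0 0)) := by
    refine h4.congr' ?_
    have h6 : ∀ᶠ t in 𝓝[>] (0:ℝ), t ∈ Ioo (0:ℝ) 10 := Ioo_mem_nhdsGT (by norm_num)
    filter_upwards [h6] with t ht
    rw [zero_add, pt_zero, FF_one, hpt t ⟨ht.1.le, ht.2.le⟩]
    simp only [smul_eq_mul]
    ring
  have h7 := tendsto_nhds_unique h5 hz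
  unfold HTf at h7
  rw [pt_zero] at h7
  have hm0 : (m : ℝ) ≠ 0 := by positivity
  simp only [one_mul, neg_eq_zero] at h7
  rw [show ((m:ℂ) * GC m a 1).re = (m:ℝ) * (GC m a 1).re from by
    rw [← Complex.ofReal_natCast, Complex.re_ofReal_mul]] at h7
  exact (mul_eq_zero.mp h7).resolve_left hm0

theorem log_inv_bound {r : ℝ} (hr : 0 < r) : r * Real.log (1 / r) ≤ 1 := by
  have h := Real.log_le_sub_one_of_pos (show 0 < 1 / r by positivity)
  have h2 : r * Real.log (1 / r) ≤ r * (1 / r - 1) := mul_le_mul_of_nonneg_left h hr.le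
  have h3 : r * (1 / r - 1) = 1 - r := by field_simp
  linarith

/-- abstract estimate -/
theorem key_abs (G : ℂ → ℂ) (B : ℝ → ℂ) (c C1 : ℝ) (hc : 0 ≤ c) (hC1 : 0 ≤ C1)
    (hscale : ∀ s ρ, 0 < s → s ≤ 1 → 0 < ρ → ‖B (s * ρ) - B ρ‖ ≤ 2 * Real.pi * Real.log (1 / s))
    (hG : ∀ z : ℂ, z ≠ 0 → ‖G (1 + z) + c * z * B ‖z‖‖ ≤ C1 * ‖z‖)
    (w : ℂ) (hw : w ≠ 0) (hw2 : ‖w‖ ≤ 1 / 2) :
    ‖Complex.exp w * G (Complex.exp w) + c * w * B ‖w‖‖ ≤
      (4 * C1 + 8 * Real.pi * c * (Real.log 4 + Real.log 2) + 5 * c * (‖B 1‖ + 2 * Real.pi)) * ‖w‖ := by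
  set r : ℝ := ‖w‖ with hr
  have hr0 : 0 < r := norm_pos_iff.mpr hw
  set z : ℂ := Complex.exp w - 1 with hz
  have hzw : ‖z - w‖ ≤ r ^ 2 := Complex.norm_exp_sub_one_sub_id_le (by linarith)
  have hz1 : ‖z‖ ≤ 2 * r := by
    have : z = (z - w) + w := by ring
    calc ‖z‖ = ‖(z - w) + w‖ := by rw [← this]
      _ ≤ ‖z - w‖ + ‖w‖ := norm_add_le _ _
      _ ≤ r ^ 2 + r := by linarith
      _ ≤ 2 * r := by nlinarith
  have hz2 : r / 2 ≤ ‖z‖ := by
    have h1 : ‖w‖ ≤ ‖z‖ + ‖z - w‖ := by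
      have : w = z - (z - w) := by ring
      calc ‖w‖ = ‖z - (z - w)‖ := by rw [← this]
        _ ≤ ‖z‖ + ‖z - w‖ := norm_sub_le _ _
    nlinarith
  have hz0 : z ≠ 0 := by
    intro h
    rw [h, norm_zero] at hz2
    linarith
  have hzpos : 0 < ‖z‖ := norm_pos_iff.mpr hz0
  have hexp : Complex.exp w = 1 + z := by rw [hz]; ring
  have hE := hG z hz0
  -- B ‖z‖ vs B r
  have hB1 : ‖B ‖z‖ - B (2 * r)‖ ≤ 2 * Real.pi * Real.log 4 := by
    have h := hscale (‖z‖ / (2 * r)) (2 * r) (by positivity)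
      ((div_le_one (by positivity)).mpr hz1) (by positivity)
    have h2 : ‖z‖ / (2 * r) * (2 * r) = ‖z‖ := by field_simp
    rw [h2] at h
    refine h.trans ?_
    have h3 : 1 / (‖z‖ / (2 * r)) ≤ 4 := by
      rw [one_div_div, div_le_iff₀ hzpos]
      linarith
    have h4 : Real.log (1 / (‖z‖ / (2 * r))) ≤ Real.log 4 := Real.log_le_log (by positivity) h3
    have := Real.pi_pos
    nlinarith
  have hB2 : ‖B r - B (2 * r)‖ ≤ 2 * Real.pi * Real.log 2 := by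
    have h := hscale (1 / 2) (2 * r) (by norm_num) (by norm_num) (by positivity)
    have h2 : (1:ℝ) / 2 * (2 * r) = r := by ring
    rw [h2] at h
    simpa using h
  have hB3 : ‖B ‖z‖ - B r‖ ≤ 2 * Real.pi * (Real.log 4 + Real.log 2) := by
    have : B ‖z‖ - B r = (B ‖z‖ - B (2 * r)) - (B r - B (2 * r)) := by ring
    rw [this]
    have := norm_sub_le (B ‖z‖ - B (2 * r)) (B r - B (2 * r))
    linarith
  have hB4 : r * ‖B r‖ ≤ ‖B 1‖ + 2 * Real.pi := by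
    have h := hscale r 1 hr0 (by linarith) one_pos
    rw [mul_one] at h
    have h2 : ‖B r‖ ≤ ‖B 1‖ + 2 * Real.pi * Real.log (1 / r) := by
      have : B r = B 1 + (B r - B 1) := by ring
      calc ‖B r‖ = ‖B 1 + (B r - B 1)‖ := by rw [← this]
        _ ≤ ‖B 1‖ + ‖B r - B 1‖ := norm_add_le _ _
        _ ≤ _ := by linarith
    have h3 := log_inv_bound hr0
    have h4 : r * ‖B r‖ ≤ r * (‖B 1‖ + 2 * Real.pi * Real.log (1 / r)) :=
      mul_le_mul_of_nonneg_left h2 hr0.le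
    have h5 : r * ‖B 1‖ ≤ ‖B 1‖ := by nlinarith [norm_nonneg (B 1)]
    have h6 : 2 * Real.pi * (r * Real.log (1 / r)) ≤ 2 * Real.pi * 1 :=
      mul_le_mul_of_nonneg_left h3 (by positivity)
    nlinarith
  -- decomposition
  have hdec : Complex.exp w * G (Complex.exp w) + c * w * B r =
      (1 + z) * (G (1 + z) + c * z * B ‖z‖) - c * z * (1 + z) * (B ‖z‖ - B r)
        - c * (z * (1 + z) - w) * B r := by
    rw [hexp]; ring
  have h1z : ‖1 + z‖ ≤ 2 := by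
    have := norm_add_le (1 : ℂ) z
    rw [norm_one] at this
    linarith
  have hq : ‖z * (1 + z) - w‖ ≤ 5 * r ^ 2 := by
    have : z * (1 + z) - w = (z - w) + z * z := by ring
    rw [this]
    have h2 := norm_add_le (z - w) (z * z)
    rw [norm_mul] at h2
    have h3 : ‖z‖ * ‖z‖ ≤ (2 * r) * (2 * r) := mul_le_mul hz1 hz1 (norm_nonneg _) (by positivity)
    nlinarith
  have t1 : ‖(1 + z) * (G (1 + z) + c * z * B ‖z‖)‖ ≤ 4 * C1 * r := by
    rw [norm_mul]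
    calc ‖1 + z‖ * ‖G (1 + z) + c * z * B ‖z‖‖ ≤ 2 * (C1 * ‖z‖) :=
          mul_le_mul h1z hE (norm_nonneg _) (by norm_num)
      _ ≤ 2 * (C1 * (2 * r)) := by
          have := mul_le_mul_of_nonneg_left hz1 hC1
          linarith
      _ = 4 * C1 * r := by ring
  have t2 : ‖c * z * (1 + z) * (B ‖z‖ - B r)‖ ≤
      8 * Real.pi * c * (Real.log 4 + Real.log 2) * r := by
    rw [norm_mul, norm_mul, norm_mul, Complex.norm_real, Real.norm_of_nonneg hc]
    have hl : 0 ≤ Real.log 4 + Real.log 2 :=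
      add_nonneg (Real.log_nonneg (by norm_num)) (Real.log_nonneg (by norm_num))
    have e1 : c * ‖z‖ * ‖1 + z‖ ≤ c * (2 * r) * 2 :=
      mul_le_mul (mul_le_mul_of_nonneg_left hz1 hc) h1z (norm_nonneg _) (by positivity)
    calc c * ‖z‖ * ‖1 + z‖ * ‖B ‖z‖ - B r‖
        ≤ c * (2 * r) * 2 * (2 * Real.pi * (Real.log 4 + Real.log 2)) :=
          mul_le_mul e1 hB3 (norm_nonneg _) (by positivity)
      _ = _ := by ring
  have t3 : ‖c * (z * (1 + z) - w) * B r‖ ≤ 5 * c * (‖B 1‖ + 2 * Real.pi) * r := by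
    rw [norm_mul, norm_mul, Complex.norm_real, Real.norm_of_nonneg hc]
    have e1 : c * ‖z * (1 + z) - w‖ * ‖B r‖ ≤ c * (5 * r ^ 2) * ‖B r‖ :=
      mul_le_mul_of_nonneg_right (mul_le_mul_of_nonneg_left hq hc) (norm_nonneg _)
    have e2 : c * (5 * r ^ 2) * ‖B r‖ = 5 * c * r * (r * ‖B r‖) := by ring
    have e3 : 5 * c * r * (r * ‖B r‖) ≤ 5 * c * r * (‖B 1‖ + 2 * Real.pi) :=
      mul_le_mul_of_nonneg_left hB4 (by positivity)
    linarith
  rw [hdec]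
  have n1 := norm_sub_le ((1 + z) * (G (1 + z) + c * z * B ‖z‖) - c * z * (1 + z) * (B ‖z‖ - B r))
    (c * (z * (1 + z) - w) * B r)
  have n2 := norm_sub_le ((1 + z) * (G (1 + z) + c * z * B ‖z‖)) (c * z * (1 + z) * (B ‖z‖ - B r))
  nlinarith

theorem norm_strip (X t : ℝ) : ‖(-(t : ℂ) + X * Complex.I)‖ = √(X ^ 2 + t ^ 2) := by
  have h : (-(t : ℂ) + X * Complex.I) = ((-t : ℝ) : ℂ) + (X : ℝ) * Complex.I := by push_cast; ring
  rw [h, Complex.norm_add_mul_I]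
  congr 1
  ring

/-- R8a with the R3c, R4c, R4d inputs as hypotheses -/
theorem grad_expand_of (m : ℕ) (hm : 1 ≤ m) (a : ℝ → ℝ) (ha : Prof a)
    (hpt : ∀ t ∈ Icc (0:ℝ) 10, (m:ℝ) ^ 2 * FF m a (pt m 0 t) = Phi m a 0 t)
    (hexp : ∃ C : ℝ, ∀ z : ℂ, z ≠ 0 →
      ‖CT (D0 m a) (1 + z) - CT (D0 m a) 1 + z * BB (D0 m a) 1 ‖z‖‖ ≤ C * ‖z‖)
    (hscale : ∀ s ρ, 0 < s → s ≤ 1 → 0 < ρ →
      ‖BB (D0 m a) 1 (s * ρ) - BB (D0 m a) 1 ρ‖ ≤ 2 * Real.pi * Real.log (1 / s))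
    (hz : Tendsto (fun t => Phi m a 0 t / t) (𝓝[>] 0) (𝓝 0)) :
    ∃ (HX HT : ℝ → ℝ → ℝ) (β : ℝ → ℝ) (C ρ₀ : ℝ), 0 < C ∧ 0 < ρ₀ ∧
    (∀ X t, HasFDerivAt (fun q : ℝ × ℝ => (m:ℝ) ^ 2 * FF m a (pt m q.1 q.2))
      (HX X t • ContinuousLinearMap.fst ℝ ℝ ℝ + HT X t • ContinuousLinearMap.snd ℝ ℝ ℝ) (X, t)) ∧
    Continuous (fun q : ℝ × ℝ => HX q.1 q.2) ∧ Continuous (fun q : ℝ × ℝ => HT q.1 q.2) ∧
    (∀ X t, 0 < X ^ 2 + t ^ 2 → √(X ^ 2 + t ^ 2) ≤ ρ₀ →
      |HX X t - X * β (√(X ^ 2 + t ^ 2))| ≤ C * √(X ^ 2 + t ^ 2)) ∧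
    (∀ X t, 0 < X ^ 2 + t ^ 2 → √(X ^ 2 + t ^ 2) ≤ ρ₀ →
      |HT X t + t * β (√(X ^ 2 + t ^ 2))| ≤ C * √(X ^ 2 + t ^ 2)) ∧
    (∀ r s, 0 < r → r ≤ ρ₀ → 0 < s → s ≤ 1 → |β (s * r) - β r| ≤ Real.log (1 / s)) := by
  have hm0 : (0 : ℝ) < m := by positivity
  have hm0' : (m : ℂ) ≠ 0 := by exact_mod_cast hm0.ne'
  obtain ⟨C0, hC0⟩ := hexp
  have hpi := Real.pi_pos
  set B : ℝ → ℂ := fun ρ => BB (D0 m a) 1 ρ with hBdef
  set c : ℝ := 1 / (2 * Real.pi) with hc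
  have hc0 : 0 < c := by positivity
  have hG1 : GC m a 1 = 0 := Complex.ext (GC_one_re m hm a ha hz hpt) (GC_one_im m a)
  set C1 : ℝ := c * |C0| + |Om m a| with hC1def
  have hC1 : 0 ≤ C1 := by positivity
  have hG : ∀ z : ℂ, z ≠ 0 → ‖GC m a (1 + z) + c * z * B ‖z‖‖ ≤ C1 * ‖z‖ := by
    intro z hz0
    have e : GC m a (1 + z) + c * z * B ‖z‖ = (c : ℂ) *
        (CT (D0 m a) (1 + z) - CT (D0 m a) 1 + z * BB (D0 m a) 1 ‖z‖)
        - (Om m a : ℝ) * (starRingEnd ℂ) z := by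
      have h1 : GC m a (1 + z) = GC m a (1 + z) - GC m a 1 := by rw [hG1, sub_zero]
      rw [h1]
      simp only [GC, hBdef, map_add, map_one, hc]
      ring
    rw [e]
    have n1 := norm_sub_le ((c : ℂ) *
        (CT (D0 m a) (1 + z) - CT (D0 m a) 1 + z * BB (D0 m a) 1 ‖z‖))
        ((Om m a : ℝ) * (starRingEnd ℂ) z)
    rw [norm_mul, norm_mul, Complex.norm_real, Complex.norm_real, Real.norm_of_nonneg hc0.le,
      RCLike.norm_conj, Real.norm_eq_abs] at n1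
    have n2 := hC0 z hz0
    have n3 : C0 * ‖z‖ ≤ |C0| * ‖z‖ := mul_le_mul_of_nonneg_right (le_abs_self _) (norm_nonneg _)
    have n4 := mul_le_mul_of_nonneg_left (n2.trans n3) hc0.le
    rw [hC1def]
    linarith
  set K : ℝ := 4 * C1 + 8 * Real.pi * c * (Real.log 4 + Real.log 2) +
    5 * c * (‖B 1‖ + 2 * Real.pi) with hK
  have hKnn : 0 ≤ K := by
    have hl : 0 ≤ Real.log 4 + Real.log 2 :=
      add_nonneg (Real.log_nonneg (by norm_num)) (Real.log_nonneg (by norm_num))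
    positivity
  have hBre : ∀ ρ, B ρ = ((B ρ).re : ℂ) := fun ρ =>
    (Complex.conj_eq_iff_re.mp (BB_one_conj m a ρ)).symm
  have key : ∀ X t : ℝ, 0 < X ^ 2 + t ^ 2 → √(X ^ 2 + t ^ 2) ≤ (m : ℝ) / 2 →
      ‖(m : ℂ) * (pt m X t * GC m a (pt m X t)) + (-(t : ℂ) + X * Complex.I) *
        ((c * (B (√(X ^ 2 + t ^ 2) / m)).re : ℝ) : ℂ)‖ ≤ K * √(X ^ 2 + t ^ 2) := by
    intro X t h0 h1
    set w : ℂ := (-(t : ℂ) + X * Complex.I) / m with hw
    have hwn : ‖w‖ = √(X ^ 2 + t ^ 2) / m := by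
      rw [hw, norm_div, norm_strip, Complex.norm_natCast]
    have hs : 0 < √(X ^ 2 + t ^ 2) := Real.sqrt_pos.mpr h0
    have hw0 : w ≠ 0 := by
      rw [← norm_pos_iff, hwn]
      positivity
    have hw2 : ‖w‖ ≤ 1 / 2 := by
      rw [hwn, div_le_iff₀ hm0]
      linarith
    have h := key_abs (GC m a) B c C1 hc0.le hC1 hscale hG w hw0 hw2
    have e : (m : ℂ) * (pt m X t * GC m a (pt m X t)) + (-(t : ℂ) + X * Complex.I) *
        ((c * (B (√(X ^ 2 + t ^ 2) / m)).re : ℝ) : ℂ) =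
        m * (Complex.exp w * GC m a (Complex.exp w) + c * w * B ‖w‖) := by
      have e1 : pt m X t = Complex.exp w := rfl
      have e2 : (-(t : ℂ) + X * Complex.I) = m * w := by rw [hw]; field_simp
      rw [e1, e2, hwn, hBre (√(X ^ 2 + t ^ 2) / m)]
      push_cast
      rw [Complex.ofReal_re]
      ring
    rw [e, norm_mul, Complex.norm_natCast]
    have h2 := mul_le_mul_of_nonneg_left h hm0.le
    refine h2.trans (le_of_eq ?_)
    rw [hwn, ← hK]
    field_simp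
  refine ⟨HXf m a, HTf m a, fun ρ => c * (B (ρ / m)).re, K + 1, m / 2, by linarith, by positivity,
    H_hasFDerivAt m hm a ha, HXf_continuous m ha, HTf_continuous m ha, ?_, ?_, ?_⟩
  · intro X t h0 h1
    have h := key X t h0 h1
    have e : HXf m a X t - X * (c * (B (√(X ^ 2 + t ^ 2) / m)).re) =
        (Complex.I * ((m : ℂ) * (pt m X t * GC m a (pt m X t)) + (-(t : ℂ) + X * Complex.I) *
        ((c * (B (√(X ^ 2 + t ^ 2) / m)).re : ℝ) : ℂ))).re := by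
      rw [mul_add, Complex.add_re, HXf, sub_eq_add_neg]
      congr 1
      simp
    rw [e]
    refine (Complex.abs_re_le_norm _).trans ?_
    rw [norm_mul, Complex.norm_I, one_mul]
    have := Real.sqrt_nonneg (X ^ 2 + t ^ 2)
    linarith
  · intro X t h0 h1
    have h := key X t h0 h1
    have e : HTf m a X t + t * (c * (B (√(X ^ 2 + t ^ 2) / m)).re) =
        -((m : ℂ) * (pt m X t * GC m a (pt m X t)) + (-(t : ℂ) + X * Complex.I) *
        ((c * (B (√(X ^ 2 + t ^ 2) / m)).re : ℝ) : ℂ)).re := by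
      rw [Complex.add_re, HTf, neg_add]
      congr 1
      simp
    rw [e, abs_neg]
    refine (Complex.abs_re_le_norm _).trans ?_
    have := Real.sqrt_nonneg (X ^ 2 + t ^ 2)
    linarith
  · intro r s hr hr2 hs hs1
    have h := hscale s (r / m) hs hs1 (by positivity)
    have e : c * (B (s * r / m)).re - c * (B (r / m)).re = c * (B (s * (r / m)) - B (r / m)).re := by
      rw [Complex.sub_re, mul_div_assoc]
      ring
    rw [e, abs_mul, abs_of_pos hc0]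
    have h2 := (Complex.abs_re_le_norm (B (s * (r / m)) - B (r / m))).trans h
    have h3 := mul_le_mul_of_nonneg_left h2 hc0.le
    refine h3.trans (le_of_eq ?_)
    rw [hc]
    field_simp

end

end Pool.Agent.Helper98.VS
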